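import Pool.Agent.PHJ.PlT

/-!
# Phantoms in `D^b(P^n)` and the Atiyah class

Problem MP_ff9bf4_ag. `D^b(P^n)` over a field `k` is the homotopy category of one-sided twisted
complexes of line bundles over the Cech dg algebra of the standard covering:

* `Ch n k`: cochains, functions on the faces `K` of the simplex with vertices `0, ..., n` with
  values in Laurent polynomials, with the Alexander-Whitney product `mu`, the Cech differential
  `df` and the signs `sm m = (-1)^(m card K)`;
* `Reg p e c`: `c` is a Cech `p`-cochain with values in `O(e)`: homogeneous of degree `e`, negative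
  exponents only at the vertices of the face;
* `Ob n k`: finitely many summands `O(e i)[-s i]` and a matrix `δ` of cochains of total degree one,
  triangular with respect to `rk`, with the Maurer-Cartan equation `Flat δ`;
* `Closed E F m t`, `Exact E F m t`: cocycles and coboundaries of degree `m` of the complex
  `Hom(E, F(t))`; their quotient is `Hom(E, F(t)[m])`;
* `Iso E F`: isomorphic in `D^b(P^n)`; `lb`: direct sum of shifted line bundles;
* `atiyah E i = ∂δ/∂x_i`: the contraction `v_i(E) ∈ Hom(E, E(-1)[1])` of the Atiyah class of `E`
  with the section `∂/∂x_i` of `T(-1)`;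
* `IsTri A`: full triangulated subcategory closed under isomorphisms and direct summands;
  `K0Zero A`: its Grothendieck group is zero.
-/

noncomputable section

namespace Pool.Agent.Results.MP_ff9bf4_ag.AtiyahSplitting

open Pool.Agent.PHJ.Pl

universe u

/-- Let `k` be a field of characteristic zero and `n ≥ 1`.
(1) `E ∈ D^b(P^n)` is a direct sum of shifted line bundles iff all `v_i(E)` vanish.
(2) In a triangulated subcategory with `K_0 = 0`, closed under direct summands (for instance a
phantom), every nonzero object `E` has a nonzero `v_i(E)`; in particular `Hom(E, E(-1)[1]) ≠ 0`.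
(3) A nonzero triangulated subcategory closed under direct summands all of whose objects have
`v_i(E) = 0` for all `i` consists of the sums of shifts of one line bundle `O(a)`. -/
theorem result (n : ℕ) (hn : 1 ≤ n) (k : Type u) [Field k] [CharZero k] :
    (∀ E : Ob n k, (∀ i, Exact E E 1 (-1) (atiyah E i)) ↔ IsSplit E) ∧
    (∀ A : Ob n k → Prop, IsTri A → K0Zero A → ∀ E, A E → ¬ Iso E (zero n k) →
      ∃ i, Closed E E 1 (-1) (atiyah E i) ∧ ¬ Exact E E 1 (-1) (atiyah E i)) ∧
    (∀ A : Ob n k → Prop, IsTri A → (∃ E, A E ∧ ¬ Iso E (zero n k)) →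
      (∀ E, A E → ∀ i, Exact E E 1 (-1) (atiyah E i)) → ∃ a : ℤ, ∀ E, A E ↔
        ∃ (B : Type) (_ : Fintype B) (_ : DecidableEq B) (s : B → ℤ),
          Iso E (lb n k B (fun _ => a) s)) :=
  ⟨split_iff_atiyah hn, fun _ hA h0 _ hE hz => phantom hn hA h0 hE hz,
    fun _ hA hz h => line hn hA hz h⟩

end Pool.Agent.Results.MP_ff9bf4_ag.AtiyahSplitting
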